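import Pool.Agent.H238.SR.Fin

/-! Semi-random ergodic averages along return times of `x ↦ p x`: for all `a` in `(0, 1/2)`, all
integers `p ≥ 2` and almost every `y` the sequence of return times is semi-random good. -/

set_option autoImplicit false

noncomputable section

namespace Pool.Agent.Results.MP_6b6241_an.SemiRandom

open MeasureTheory Filter Topology

universe u

/-- `Λ_{a,p}(y)`: the integers `n ≥ 1` with `p ^ n y mod 1` in the open interval `(0, n ^ (-a))` -/
def RetSet (p : ℕ) (a y : ℝ) : Set ℕ :=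
  {n : ℕ | 1 ≤ n ∧ Int.fract ((p : ℝ) ^ n * y) ∈ Set.Ioo (0 : ℝ) ((n : ℝ) ^ (-a))}

/-- `b_n(y)`, `n ≥ 1`: the `n`-th element of `Λ_{a,p}(y)` in increasing order -/
def bseq (p : ℕ) (a y : ℝ) (n : ℕ) : ℕ := Nat.nth (fun k => k ∈ RetSet p a y) (n - 1)

/-- `I(T)`: the σ-algebra of all measurable sets `A` with `T ⁻¹ A = A` up to a `μ`-null set -/
@[reducible] def InvAlg {X : Type u} [mX : MeasurableSpace X] (μ : Measure X) (T : X → X) :
    MeasurableSpace X where
  MeasurableSet' A := MeasurableSet[mX] A ∧ T ⁻¹' A =ᵐ[μ] A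
  measurableSet_empty := ⟨MeasurableSet.empty, by simp⟩
  measurableSet_compl := fun A hA => ⟨hA.1.compl, by
    rw [Set.preimage_compl]; exact hA.2.compl⟩
  measurableSet_iUnion := fun A hA => ⟨MeasurableSet.iUnion fun i => (hA i).1, by
    rw [Set.preimage_iUnion]; exact Filter.EventuallyEq.countable_iUnion fun i => (hA i).2⟩

/-- The sequence `b_1, b_2, ...` is semi-random good: for every probability space, every two
measure preserving maps `T₁`, `T₂` of it that commute almost everywhere (invertible or not) and all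
essentially bounded complex functions `f₁`, `f₂`, for almost every `x` the averages
`(1 / N) ∑_{n = 1}^N f₁ (T₁ ^ n x) f₂ (T₂ ^ (b_n) x)` converge to the product of the conditional
expectations `E (f₁ | I(T₁)) (x) * E (f₂ | I(T₂)) (x)`. -/
def SemiRandomGood (b : ℕ → ℕ) : Prop :=
  ∀ (X : Type u) [MeasurableSpace X] (μ : Measure X) [IsProbabilityMeasure μ] (T₁ T₂ : X → X),
    MeasurePreserving T₁ μ μ → MeasurePreserving T₂ μ μ → (∀ᵐ x ∂μ, T₁ (T₂ x) = T₂ (T₁ x)) →
    ∀ f₁ f₂ : X → ℂ, MemLp f₁ ⊤ μ → MemLp f₂ ⊤ μ →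
      ∀ᵐ x ∂μ, Tendsto (fun N : ℕ => (1 / (N : ℂ)) *
          ∑ n ∈ Finset.Icc 1 N, f₁ (T₁^[n] x) * f₂ (T₂^[b n] x)) atTop
        (𝓝 ((condExp (InvAlg μ T₁) μ f₁) x * (condExp (InvAlg μ T₂) μ f₂) x))

/-- For all `a` in `(0, 1/2)`, all integers `p ≥ 2` and Lebesgue almost every `y` in `[0, 1]` the
set `Λ_{a,p}(y)` is infinite, `b_1(y) < b_2(y) < ...` is its increasing enumeration, and the
sequence `(b_n(y))` is semi-random good. The exceptional set of `y` depends only on `a` and `p`. -/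
theorem result : ∀ a : ℝ, 0 < a → a < 1 / 2 → ∀ p : ℕ, 2 ≤ p →
    ∀ᵐ y ∂(volume.restrict (Set.Icc (0 : ℝ) 1)),
      (RetSet p a y).Infinite ∧ StrictMonoOn (bseq p a y) (Set.Ici 1) ∧
      bseq p a y '' (Set.Ici 1) = RetSet p a y ∧ SemiRandomGood.{u} (bseq p a y) := by
  intro a ha ha1 p hp
  filter_upwards [Pool.Agent.H238.SR.good_all p hp a ha ha1] with y hy
  have hinf : (RetSet p a y).Infinite := Pool.Agent.H238.SR.good_inf p hp a ha ha1 _ hy
  refine ⟨hinf, ?_, ?_, ?_⟩
  · intro m hm n hn hmn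
    rw [Set.mem_Ici] at hm hn
    unfold bseq
    exact Nat.nth_strictMono hinf (by omega)
  · apply Set.Subset.antisymm
    · rintro _ ⟨n, _, rfl⟩
      exact Nat.nth_mem_of_infinite hinf (n - 1)
    · intro k hk
      obtain ⟨m, hm⟩ : k ∈ Set.range (Nat.nth (fun k => k ∈ RetSet p a y)) := by
        rw [Nat.range_nth_of_infinite (p := fun k => k ∈ RetSet p a y) hinf]; exact hk
      refine ⟨m + 1, ?_, ?_⟩
      · rw [Set.mem_Ici]; omega
      · unfold bseq
        rw [Nat.add_sub_cancel]; exact hm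
  · intro X _ μ _ T₁ T₂ h1 h2 hc f₁ f₂ hf₁ hf₂
    have key := Pool.Agent.H238.SR.final_one p hp a ha ha1 _ hy X μ T₁ T₂ h1 h2 hc f₁ f₂ hf₁ hf₂
    have e1 : (fun n => 1 ≤ n ∧ n ∈ Pool.Agent.H238.SR.RT p a y) =
        fun k => k ∈ RetSet p a y := by
      funext n
      exact propext ⟨fun h => h.2, fun h => ⟨h.1, h⟩⟩
    have e2 : ∀ n, 1 ≤ n → Pool.Agent.H505RS.en (Pool.Agent.H238.SR.RT p a y) n = bseq p a y n := by
      intro n hn
      obtain ⟨k, rfl⟩ : ∃ k, n = k + 1 := ⟨n - 1, by omega⟩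
      show Nat.nth (fun n => 1 ≤ n ∧ n ∈ Pool.Agent.H238.SR.RT p a y) k = _
      unfold bseq
      rw [e1, Nat.add_sub_cancel]
    filter_upwards [key] with x hx
    refine hx.congr fun N => ?_
    rw [one_div, inv_mul_eq_div]
    congr 1
    have e3 : Finset.Ioc 0 N = Finset.Icc 1 N := by
      ext k; simp only [Finset.mem_Ioc, Finset.mem_Icc]; omega
    rw [e3]
    refine Finset.sum_congr rfl fun k hk => ?_
    rw [Finset.mem_Icc] at hk
    rw [e2 k hk.1]

end Pool.Agent.Results.MP_6b6241_an.SemiRandom
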